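import Mathlib

/-!
# MP_31ab2b_pr : random walk in a random unit-arrow drift field

The quenched kernel of the walk never satisfies the pointwise local limit requirement of the
problem (condition (ii)): in a static environment the value `p_ω(n, 0)` keeps a non-degenerate
dependence on the arrows at the neighbours of `0`.
-/

open MeasureTheory Filter Topology ProbabilityTheory BoundedContinuousFunction

namespace Pool.Agent.Results.MP_31ab2b_pr.NeverHomogenizes

noncomputable section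

/-- A unit arrow: a coordinate direction together with a sign. -/
abbrev Arrow (d : ℕ) : Type := Fin d × Bool

/-- The unit vector of `ℤ^d` of an arrow: `(i, true)` is `e_i` and `(i, false)` is `-e_i`. -/
def vec {d : ℕ} (a : Arrow d) : Fin d → ℤ := Pi.single a.1 (if a.2 then 1 else -1)

/-- An environment: an arrow at every site of `ℤ^d`. -/
abbrev Env (d : ℕ) : Type := (Fin d → ℤ) → Arrow d

/-- The uniform law on the `2d` arrows. -/
def arrowLaw (d : ℕ) [NeZero d] : Measure (Arrow d) := (PMF.uniformOfFintype (Arrow d)).toMeasure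

/-- The law of the environment: independent uniform arrows at the sites. -/
def envLaw (d : ℕ) [NeZero d] : Measure (Env d) := Measure.infinitePi (fun _ => arrowLaw d)

/-- The transition probability from `x` to a neighbour `z`. -/
def trans {d : ℕ} (ε : ℝ) (ω : Env d) (x z : Fin d → ℤ) : ℝ :=
  if x - z = vec (ω x) then 1 - (2 * (d : ℝ) - 1) * ε else ε

/-- The quenched kernel `p_ω(n, x)` of the walk started at `0`; the sum is over the `2d`
neighbours `x + e` of `x`. -/
def kern {d : ℕ} (ε : ℝ) (ω : Env d) : ℕ → (Fin d → ℤ) → ℝ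
  | 0, x => if x = 0 then 1 else 0
  | n + 1, x => ∑ a : Arrow d, kern ε ω n (x + vec a) * trans ε ω (x + vec a) x

/-- The averaged kernel `m_1(n, x)`. -/
def meanKern (d : ℕ) [NeZero d] (ε : ℝ) (n : ℕ) (x : Fin d → ℤ) : ℝ :=
  ∫ ω, kern ε ω n x ∂(envLaw d)

/-- Condition (i): under the averaged law `X_n/√n` converges in law to a centred Gaussian with
covariance `σ² I_d`, `σ² > 0`. -/
def AveragedCLT (d : ℕ) [NeZero d] (ε : ℝ) : Prop :=
  ∃ v : NNReal, 0 < v ∧ ∀ f : (Fin d → ℝ) →ᵇ ℝ,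
    Tendsto (fun n : ℕ => ∑' x : Fin d → ℤ, meanKern d ε n x * f (fun i => (x i : ℝ) / √n))
      atTop (𝓝 (∫ y, f y ∂(Measure.pi fun _ : Fin d => gaussianReal 0 v)))

/-- Condition (ii): for all `C, δ > 0`, the supremum over the `x` with `|x| ≤ C √n` and
`m_1(n, x) > 0` of the probability that `|p_ω(n,x)/m_1(n,x) - 1| > δ` tends to `0`. -/
def LocalRatio (d : ℕ) [NeZero d] (ε : ℝ) : Prop :=
  ∀ C : ℝ, 0 < C → ∀ δ : ℝ, 0 < δ → ∀ η : ℝ, 0 < η → ∀ᶠ n : ℕ in atTop, ∀ x : Fin d → ℤ,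
    √(∑ i, (x i : ℝ) ^ 2) ≤ C * √n → 0 < meanKern d ε n x →
      (envLaw d).real {ω | δ < |kern ε ω n x / meanKern d ε n x - 1|} ≤ η

/-- The model homogenizes: conditions (i) and (ii). -/
def Homogenizes (d : ℕ) [NeZero d] (ε : ℝ) : Prop := AveragedCLT d ε ∧ LocalRatio d ε

/-! ### The proof -/

section proof

variable {d : ℕ}

instance [NeZero d] : IsProbabilityMeasure (arrowLaw d) := by
  unfold arrowLaw; infer_instance

instance [NeZero d] : IsProbabilityMeasure (envLaw d) := by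
  unfold envLaw; infer_instance

lemma trans_pos {ε : ℝ} (h0 : 0 < ε) (h1 : 2 * (d : ℝ) * ε < 1) (ω : Env d)
    (x z : Fin d → ℤ) : 0 < trans ε ω x z := by
  unfold trans
  split_ifs
  · nlinarith
  · exact h0

lemma kern_nonneg {ε : ℝ} (h0 : 0 < ε) (h1 : 2 * (d : ℝ) * ε < 1) (ω : Env d) (n : ℕ)
    (x : Fin d → ℤ) : 0 ≤ kern ε ω n x := by
  induction n generalizing x with
  | zero => unfold kern; split_ifs <;> norm_num
  | succ n ih =>
    unfold kern
    exact Finset.sum_nonneg fun a _ => mul_nonneg (ih _) (trans_pos h0 h1 _ _ _).le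

lemma trans_ge {ε : ℝ} (_h0 : 0 < ε) (h1 : 2 * (d : ℝ) * ε < 1) (ω : Env d)
    (x z : Fin d → ℤ) : ε ≤ trans ε ω x z := by
  unfold trans
  split_ifs
  · nlinarith
  · exact le_refl _

lemma trans_le {ε : ℝ} (hd : 1 ≤ d) (h0 : 0 < ε) (h1 : 2 * (d : ℝ) * ε < 1) (ω : Env d)
    (x z : Fin d → ℤ) : trans ε ω x z ≤ 1 := by
  have hd' : (1 : ℝ) ≤ d := by exact_mod_cast hd
  unfold trans
  split_ifs
  · nlinarith
  · nlinarith

lemma vec_neg (a : Arrow d) : vec (a.1, !a.2) = - vec a := by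
  unfold vec
  rcases a with ⟨i, b⟩
  cases b <;> simp [← Pi.single_neg]

/-- The kernel is bounded below by `ε ^ n` at `0` for even `n`, and at the neighbours for odd
`n`. -/
lemma kern_lower [NeZero d] {ε : ℝ} (h0 : 0 < ε) (h1 : 2 * (d : ℝ) * ε < 1) (ω : Env d)
    (k : ℕ) : ε ^ (2 * k) ≤ kern ε ω (2 * k) 0 ∧
      ∀ a : Arrow d, ε ^ (2 * k + 1) ≤ kern ε ω (2 * k + 1) (vec a) := by
  have step : ∀ (n : ℕ) (x : Fin d → ℤ) (a : Arrow d) (c : ℝ), c ≤ kern ε ω n (x + vec a) →
      0 ≤ c → c * ε ≤ kern ε ω (n + 1) x := by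
    intro n x a c hc hc0
    have : kern ε ω n (x + vec a) * trans ε ω (x + vec a) x ≤ kern ε ω (n + 1) x := by
      rw [kern]
      exact Finset.single_le_sum (f := fun a => kern ε ω n (x + vec a) * trans ε ω (x + vec a) x)
        (fun a _ => mul_nonneg (kern_nonneg h0 h1 _ _ _) (trans_pos h0 h1 _ _ _).le)
        (Finset.mem_univ a)
    refine le_trans ?_ this
    exact mul_le_mul hc (trans_ge h0 h1 _ _ _) h0.le (hc0.trans hc)
  induction k with
  | zero =>
    have hz : ε ^ (2 * 0) ≤ kern ε ω (2 * 0) 0 := by simp [kern]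
    refine ⟨hz, fun a => ?_⟩
    have := step 0 (vec a) (a.1, !a.2) 1 (by rw [vec_neg]; simp [kern]) zero_le_one
    simpa using this
  | succ k ih =>
    have ha : ε ^ (2 * (k + 1)) ≤ kern ε ω (2 * (k + 1)) 0 := by
      have a : Arrow d := (⟨0, Nat.pos_of_ne_zero (NeZero.ne d)⟩, true)
      have := step (2 * k + 1) 0 a (ε ^ (2 * k + 1)) (by simpa using ih.2 a) (by positivity)
      have e : 2 * (k + 1) = 2 * k + 1 + 1 := by ring
      rw [e, pow_succ]
      exact this
    refine ⟨ha, fun a => ?_⟩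
    have := step (2 * (k + 1)) (vec a) (a.1, !a.2) (ε ^ (2 * (k + 1)))
      (by rw [vec_neg]; simpa using ha) (by positivity)
    rw [pow_succ]
    exact this

lemma measurable_trans (ε : ℝ) (x z : Fin d → ℤ) :
    Measurable fun ω : Env d => trans ε ω x z := by
  unfold trans
  refine Measurable.ite ?_ measurable_const measurable_const
  have : {ω : Env d | x - z = vec (ω x)} = (fun ω : Env d => ω x) ⁻¹' {a | x - z = vec a} := rfl
  rw [this]
  exact (measurable_pi_apply x) (Set.Finite.measurableSet (Set.toFinite _))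

lemma measurable_kern (ε : ℝ) (n : ℕ) (x : Fin d → ℤ) :
    Measurable fun ω : Env d => kern ε ω n x := by
  induction n generalizing x with
  | zero => unfold kern; exact measurable_const
  | succ n ih =>
    unfold kern
    exact Finset.measurable_fun_sum _ fun a _ => (ih _).mul (measurable_trans _ _ _)

lemma kern_bound {ε : ℝ} (hd : 1 ≤ d) (h0 : 0 < ε) (h1 : 2 * (d : ℝ) * ε < 1) (ω : Env d)
    (n : ℕ) (x : Fin d → ℤ) : kern ε ω n x ≤ (2 * (d : ℝ)) ^ n := by
  induction n generalizing x with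
  | zero => unfold kern; split_ifs <;> norm_num
  | succ n ih =>
    unfold kern
    have hd' : (1 : ℝ) ≤ d := by exact_mod_cast hd
    calc ∑ a : Arrow d, kern ε ω n (x + vec a) * trans ε ω (x + vec a) x
        ≤ ∑ _a : Arrow d, (2 * (d : ℝ)) ^ n := by
          refine Finset.sum_le_sum fun a _ => ?_
          have h2 := ih (x + vec a)
          have h3 := kern_nonneg h0 h1 ω n (x + vec a)
          have h4 := trans_le hd h0 h1 ω (x + vec a) x
          have h5 := (trans_pos h0 h1 ω (x + vec a) x).le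
          nlinarith
      _ = (2 * (d : ℝ)) ^ (n + 1) := by
          simp [Finset.card_univ]
          ring

lemma integrable_kern [NeZero d] {ε : ℝ} (h0 : 0 < ε) (h1 : 2 * (d : ℝ) * ε < 1) (n : ℕ)
    (x : Fin d → ℤ) : Integrable (fun ω : Env d => kern ε ω n x) (envLaw d) := by
  refine Integrable.of_bound (measurable_kern ε n x).aestronglyMeasurable ((2 * (d : ℝ)) ^ n) ?_
  refine Filter.Eventually.of_forall fun ω => ?_
  rw [Real.norm_of_nonneg (kern_nonneg h0 h1 _ _ _)]
  exact kern_bound (Nat.one_le_iff_ne_zero.mpr (NeZero.ne d)) h0 h1 ω n x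

lemma lt_of_le_kern [NeZero d] {ε : ℝ} (h0 : 0 < ε) (h1 : 2 * (d : ℝ) * ε < 1) (n : ℕ)
    (x : Fin d → ℤ) (c : ℝ) (hc : 0 < c) (h : ∀ ω : Env d, c ≤ kern ε ω n x) :
    0 < meanKern d ε n x := by
  have : c ≤ ∫ ω, kern ε ω n x ∂(envLaw d) := by
    calc c = ∫ _ω : Env d, c ∂(envLaw d) := by simp
      _ ≤ _ := integral_mono (integrable_const c) (integrable_kern h0 h1 n x) h
  exact hc.trans_le this

/-- The event that the arrows at all the neighbours `vec a` of `0` are prescribed. -/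
lemma prescribed_pos [NeZero d] (g : Arrow d → Arrow d) :
    0 < (envLaw d).real {ω | ∀ a : Arrow d, ω (vec a) = g a} := by
  classical
  have hinj : Function.Injective (vec : Arrow d → (Fin d → ℤ)) := by
    rintro ⟨i, b⟩ ⟨j, c⟩ h
    unfold vec at h
    have h1 := congrFun h i
    by_cases hij : i = j
    · subst hij
      simp at h1
      cases b <;> cases c <;> simp_all
    · exfalso
      simp [Pi.single_eq_of_ne hij] at h1
      cases b <;> simp at h1
  set S : Finset (Fin d → ℤ) := Finset.univ.image (vec : Arrow d → (Fin d → ℤ)) with hS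
  let g' : (Fin d → ℤ) → Arrow d := fun x =>
    if h : ∃ a : Arrow d, vec a = x then g h.choose else (⟨0, Nat.pos_of_ne_zero (NeZero.ne d)⟩, true)
  have hg' : ∀ a, g' (vec a) = g a := by
    intro a
    have hex : ∃ b : Arrow d, vec b = vec a := ⟨a, rfl⟩
    have : g' (vec a) = g hex.choose := dif_pos hex
    rw [this, hinj hex.choose_spec]
  have hset : {ω : Env d | ∀ a : Arrow d, ω (vec a) = g a}
      = (S : Set (Fin d → ℤ)).pi (fun x => {g' x}) := by
    ext ω
    simp only [Set.mem_ofPred_eq, Set.mem_pi, Set.mem_singleton_iff, hS, Finset.coe_image,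
      Finset.coe_univ, Set.image_univ, Set.mem_range, forall_exists_index,
      forall_apply_eq_imp_iff, hg']
  rw [hset, Measure.real, envLaw, Measure.infinitePi_pi]
  · rw [ENNReal.toReal_prod]
    refine Finset.prod_pos fun x _ => ?_
    rw [arrowLaw, PMF.toMeasure_apply_singleton _ _ (measurableSet_singleton _)]
    simp only [PMF.uniformOfFintype_apply]
    rw [ENNReal.toReal_inv]
    refine inv_pos.mpr ?_
    rw [ENNReal.toReal_natCast]
    exact_mod_cast Fintype.card_pos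
  · intro x _
    exact measurableSet_singleton _

/-- Two events whose probabilities add up to more than `1` meet. -/
lemma exists_of_measure {Ω : Type*} [MeasurableSpace Ω] (μ : Measure Ω) [IsProbabilityMeasure μ]
    {ι : Type*} [Fintype ι] (A : Set Ω) (B : ι → Set Ω)
    (h : ∑ i, μ.real (B i) < μ.real A) : ∃ ω ∈ A, ∀ i, ω ∉ B i := by
  by_contra hcon
  push Not at hcon
  have hsub : A ⊆ ⋃ i, B i := by
    intro ω hω
    obtain ⟨i, hi⟩ := hcon ω hω
    exact Set.mem_iUnion.mpr ⟨i, hi⟩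
  have h1 : μ.real A ≤ μ.real (⋃ i, B i) := measureReal_mono hsub
  have h2 : μ.real (⋃ i, B i) ≤ ∑ i, μ.real (B i) := by
    have := measureReal_biUnion_finset_le (μ := μ) (Finset.univ : Finset ι) B
    simpa using this
  linarith

lemma trans_toward {ε : ℝ} (ω : Env d) (a : Arrow d) (h : ω (vec a) = a) :
    trans ε ω (0 + vec a) 0 = 1 - (2 * (d : ℝ) - 1) * ε := by
  unfold trans
  rw [if_pos]
  rw [zero_add, h, sub_zero]

lemma trans_away {ε : ℝ} (ω : Env d) (a : Arrow d) (h : ω (vec a) = (a.1, !a.2)) :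
    trans ε ω (0 + vec a) 0 = ε := by
  unfold trans
  rw [if_neg]
  rw [zero_add, h, sub_zero, vec_neg]
  intro h1
  have h2 := congrFun h1 a.1
  unfold vec at h2
  rcases a with ⟨i, b⟩
  cases b <;> simp at h2

/-- No deterministic normalisation: whatever the positive numbers `q (2k+1) (vec a)` and
`q (2k+2) 0`, the ratios of the quenched kernel to them cannot all be within a factor close to
`1` with probability close to `1`. -/
lemma core [NeZero d] {ε : ℝ} (h0 : 0 < ε) (h1 : 2 * (d : ℝ) * ε < 1) :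
    ∃ δ : ℝ, 0 < δ ∧ ∃ η : ℝ, 0 < η ∧ ∀ (n : ℕ) (q : ℝ) (r : Arrow d → ℝ), 0 < q →
      (∀ a, 0 < r a) →
      ¬ ((envLaw d).real {ω | δ < |kern ε ω (n + 1) 0 / q - 1|} ≤ η ∧
        ∀ a, (envLaw d).real {ω | δ < |kern ε ω n (vec a) / r a - 1|} ≤ η) := by
  classical
  -- choose δ
  set c : ℝ := 1 - (2 * (d : ℝ) - 1) * ε with hc
  have hcε : ε < c := by rw [hc]; nlinarith
  obtain ⟨δ, hδ0, hδ1, hδ⟩ : ∃ δ : ℝ, 0 < δ ∧ δ < 1 ∧ ε * (1 + δ) ^ 2 < c * (1 - δ) ^ 2 := by
    have hcont : Tendsto (fun δ : ℝ => c * (1 - δ) ^ 2 - ε * (1 + δ) ^ 2) (𝓝[>] 0)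
        (𝓝 (c * (1 - 0) ^ 2 - ε * (1 + 0) ^ 2)) := by
      apply Tendsto.mono_left _ nhdsWithin_le_nhds
      apply Continuous.tendsto
      fun_prop
    have hpos : (0 : ℝ) < c * (1 - 0) ^ 2 - ε * (1 + 0) ^ 2 := by
      simp only [sub_zero, add_zero, one_pow, mul_one]; linarith
    have e1 := hcont.eventually (lt_mem_nhds hpos)
    have e2 : ∀ᶠ δ : ℝ in 𝓝[>] 0, 0 < δ := eventually_mem_nhdsWithin
    have e3 : ∀ᶠ δ : ℝ in 𝓝[>] 0, δ < 1 :=
      (eventually_lt_nhds (show (0 : ℝ) < 1 by norm_num)).filter_mono nhdsWithin_le_nhds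
    obtain ⟨δ, h⟩ := (e1.and (e2.and e3)).exists
    exact ⟨δ, h.2.1, h.2.2, by linarith [h.1]⟩
  set p1 := (envLaw d).real {ω | ∀ a : Arrow d, ω (vec a) = id a} with hp1
  set p0 := (envLaw d).real {ω | ∀ a : Arrow d, ω (vec a) = (fun a => (a.1, !a.2)) a} with hp0
  have hp1' : 0 < p1 := prescribed_pos id
  have hp0' : 0 < p0 := prescribed_pos (fun a => (a.1, !a.2))
  set N : ℝ := ((Fintype.card (Option (Arrow d)) : ℕ) : ℝ) with hN
  have hNpos : 0 < N := by rw [hN]; exact_mod_cast Fintype.card_pos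
  refine ⟨δ, hδ0, min p1 p0 / (2 * N), by positivity, ?_⟩
  rintro n q r hq hr ⟨hA, hB⟩
  let B : Option (Arrow d) → Set (Env d) := fun o => match o with
    | none => {ω | δ < |kern ε ω (n + 1) 0 / q - 1|}
    | some a => {ω | δ < |kern ε ω n (vec a) / r a - 1|}
  have hsum : ∑ o, (envLaw d).real (B o) ≤ min p1 p0 / 2 := by
    calc ∑ o, (envLaw d).real (B o) ≤ ∑ _o : Option (Arrow d), min p1 p0 / (2 * N) := by
          refine Finset.sum_le_sum fun o _ => ?_
          cases o with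
          | none => exact hA
          | some a => exact hB a
      _ = min p1 p0 / 2 := by
          rw [Finset.sum_const, Finset.card_univ, nsmul_eq_mul, ← hN]
          field_simp
  have hmin : 0 < min p1 p0 := lt_min hp1' hp0'
  obtain ⟨ω1, hω1, hω1B⟩ := exists_of_measure (envLaw d)
    {ω | ∀ a : Arrow d, ω (vec a) = id a} B (by
      have := min_le_left p1 p0
      calc _ ≤ min p1 p0 / 2 := hsum
        _ < p1 := by linarith)
  obtain ⟨ω0, hω0, hω0B⟩ := exists_of_measure (envLaw d)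
    {ω | ∀ a : Arrow d, ω (vec a) = (fun a => (a.1, !a.2)) a} B (by
      have := min_le_right p1 p0
      calc _ ≤ min p1 p0 / 2 := hsum
        _ < p0 := by linarith)
  have hup : ∀ (t s : ℝ), 0 < s → ¬ δ < |t / s - 1| → (1 - δ) * s ≤ t ∧ t ≤ (1 + δ) * s := by
    intro t s hs h
    rw [not_lt, abs_le] at h
    constructor
    · have := h.1
      have h2 : 1 - δ ≤ t / s := by linarith
      rwa [le_div_iff₀ hs] at h2
    · have h2 : t / s ≤ 1 + δ := by linarith [h.2]
      rwa [div_le_iff₀ hs] at h2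
  have k1 := hup _ _ hq (hω1B none)
  have k0 := hup _ _ hq (hω0B none)
  have l1 : ∀ a, _ := fun a => hup _ _ (hr a) (hω1B (some a))
  have l0 : ∀ a, _ := fun a => hup _ _ (hr a) (hω0B (some a))
  have e1 : kern ε ω1 (n + 1) 0 = c * ∑ a : Arrow d, kern ε ω1 n (vec a) := by
    rw [kern, Finset.mul_sum]
    refine Finset.sum_congr rfl fun a _ => ?_
    rw [trans_toward ω1 a (hω1 a), zero_add, mul_comm, hc]
  have e0 : kern ε ω0 (n + 1) 0 = ε * ∑ a : Arrow d, kern ε ω0 n (vec a) := by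
    rw [kern, Finset.mul_sum]
    refine Finset.sum_congr rfl fun a _ => ?_
    rw [trans_away ω0 a (hω0 a), zero_add, mul_comm]
  set M : ℝ := ∑ a : Arrow d, r a with hM
  have hMpos : 0 < M := by
    have : Nonempty (Arrow d) := ⟨(⟨0, Nat.pos_of_ne_zero (NeZero.ne d)⟩, true)⟩
    exact Finset.sum_pos (fun a _ => hr a) Finset.univ_nonempty
  have s1 : (1 - δ) * M ≤ ∑ a : Arrow d, kern ε ω1 n (vec a) := by
    rw [hM, Finset.mul_sum]
    exact Finset.sum_le_sum fun a _ => (l1 a).1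
  have s0 : ∑ a : Arrow d, kern ε ω0 n (vec a) ≤ (1 + δ) * M := by
    rw [hM, Finset.mul_sum]
    exact Finset.sum_le_sum fun a _ => (l0 a).2
  have hcpos : 0 < c := h0.trans hcε
  have u1 : c * ((1 - δ) * M) ≤ (1 + δ) * q := by
    refine le_trans ?_ k1.2
    rw [e1]
    exact mul_le_mul_of_nonneg_left s1 hcpos.le
  have u0 : (1 - δ) * q ≤ ε * ((1 + δ) * M) := by
    refine le_trans k0.1 ?_
    rw [e0]
    exact mul_le_mul_of_nonneg_left s0 h0.le
  have v1 : c * (1 - δ) ^ 2 * M ≤ (1 + δ) * ((1 - δ) * q) := by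
    have := mul_le_mul_of_nonneg_left u1 (show (0 : ℝ) ≤ 1 - δ by linarith)
    nlinarith
  have v0 : (1 + δ) * ((1 - δ) * q) ≤ ε * (1 + δ) ^ 2 * M := by
    have := mul_le_mul_of_nonneg_left u0 (show (0 : ℝ) ≤ 1 + δ by linarith)
    nlinarith
  have : ε * (1 + δ) ^ 2 * M < c * (1 - δ) ^ 2 * M := mul_lt_mul_of_pos_right hδ hMpos
  linarith

lemma norm_vec (a : Arrow d) : √(∑ i, (vec a i : ℝ) ^ 2) = 1 := by
  have : ∑ i, (vec a i : ℝ) ^ 2 = 1 := by
    unfold vec
    rw [Finset.sum_eq_single a.1]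
    · cases a.2 <;> simp
    · intro j _ hj
      simp [Pi.single_eq_of_ne hj]
    · simp
  rw [this, Real.sqrt_one]

lemma not_localRatio [NeZero d] {ε : ℝ} (h0 : 0 < ε) (h1 : 2 * (d : ℝ) * ε < 1) :
    ¬ LocalRatio d ε := by
  intro h
  obtain ⟨δ, hδ, η, hη, hcore⟩ := core (d := d) h0 h1
  have := h 1 one_pos δ hδ η hη
  obtain ⟨n0, hn0⟩ := eventually_atTop.mp this
  have hpos0 : 0 < meanKern d ε (2 * (n0 + 1)) 0 :=
    lt_of_le_kern h0 h1 _ _ (ε ^ (2 * (n0 + 1))) (by positivity)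
      (fun ω => (kern_lower h0 h1 ω (n0 + 1)).1)
  have hpos1 : ∀ a, 0 < meanKern d ε (2 * n0 + 1) (vec a) := fun a =>
    lt_of_le_kern h0 h1 _ _ (ε ^ (2 * n0 + 1)) (by positivity)
      (fun ω => (kern_lower h0 h1 ω n0).2 a)
  refine hcore (2 * n0 + 1) (meanKern d ε (2 * (n0 + 1)) 0)
    (fun a => meanKern d ε (2 * n0 + 1) (vec a)) hpos0 hpos1 ⟨?_, fun a => ?_⟩
  · exact hn0 (2 * (n0 + 1)) (by omega) 0 (by simp) hpos0
  · refine hn0 (2 * n0 + 1) (by omega) (vec a) ?_ (hpos1 a)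
    rw [norm_vec, one_mul]
    rw [Real.one_le_sqrt]
    push_cast
    have : (0 : ℝ) ≤ n0 := Nat.cast_nonneg _
    linarith

end proof

/-- For every dimension `d ≥ 1` and every `ε ∈ (0, 1/(2d))` the model does not homogenize. -/
theorem result : ∀ (d : ℕ) [NeZero d] (ε : ℝ), 0 < ε → ε < 1 / (2 * (d : ℝ)) →
    ¬ Homogenizes d ε := by
  intro d _ ε h0 h1 h
  have hd : (0 : ℝ) < 2 * d := by
    have : (0 : ℝ) < d := by exact_mod_cast Nat.pos_of_ne_zero (NeZero.ne d)
    linarith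
  have h2 : 2 * (d : ℝ) * ε < 1 := by
    rw [lt_div_iff₀ hd] at h1
    linarith
  exact not_localRatio h0 h2 h.2

end

end Pool.Agent.Results.MP_31ab2b_pr.NeverHomogenizes
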